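import Pool.Agent.Work.MP_ce2d68_st.Interface

/-! Block SCR: staircase functions and local constancy. -/

namespace Pool.Agent.Work.MP_ce2d68_st.helper76

open Set

theorem stmt_SCR : Stmt_SCR := by
  intro c a b hc
  constructor
  · rintro ⟨I, -, hlt, hU, -, hconst⟩ θ hθ
    rw [← hU] at hθ
    simp only [mem_iUnion, exists_prop] at hθ
    obtain ⟨u, hu, hθu⟩ := hθ
    have hsub : Ico u.1 u.2 ⊆ Ico a b := by
      rw [← hU]
      exact subset_biUnion_of_mem (u := fun u : ℝ × ℝ => Ico u.1 u.2) hu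
    have h2 := ((Ico_subset_Ico_iff (hlt u hu)).1 hsub).2
    refine ⟨u.2 - θ, by linarith [hθu.2], by linarith, ?_⟩
    intro θ' h'
    rw [add_sub_cancel] at h'
    exact hconst u hu θ' ⟨hθu.1.trans h'.1, h'.2⟩ θ hθu
  · intro h
    -- the level set of a point
    set Lv : ℝ → Set ℝ := fun θ => {x | x ∈ Ico a b ∧ c x = c θ} with hLv
    have hbb : ∀ θ, BddBelow (Lv θ) := fun θ => ⟨a, fun x hx => hx.1.1⟩
    have hba : ∀ θ, BddAbove (Lv θ) := fun θ => ⟨b, fun x hx => hx.1.2.le⟩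
    have hme : ∀ θ ∈ Ico a b, θ ∈ Lv θ := fun θ hθ => ⟨hθ, rfl⟩
    have hleb : ∀ θ ∈ Ico a b, sSup (Lv θ) ≤ b := fun θ hθ =>
      csSup_le ⟨θ, hme θ hθ⟩ fun x hx => hx.1.2.le
    have hage : ∀ θ ∈ Ico a b, a ≤ sInf (Lv θ) := fun θ hθ =>
      le_csInf ⟨θ, hme θ hθ⟩ fun x hx => hx.1.1
    -- the infimum is attained
    have hinf : ∀ θ ∈ Ico a b, sInf (Lv θ) ∈ Lv θ := by
      intro θ hθ
      have h1 : sInf (Lv θ) ∈ Ico a b :=
        ⟨hage θ hθ, (csInf_le (hbb θ) (hme θ hθ)).trans_lt hθ.2⟩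
      obtain ⟨ε, hε, -, hcε⟩ := h _ h1
      obtain ⟨x, hx, hx2⟩ := exists_lt_of_csInf_lt ⟨θ, hme θ hθ⟩
        (show sInf (Lv θ) < sInf (Lv θ) + ε by linarith)
      refine ⟨h1, ?_⟩
      rw [← hx.2]
      exact (hcε x ⟨csInf_le (hbb θ) hx, hx2⟩).symm
    have heq : ∀ θ ∈ Ico a b, Lv θ = Ico (sInf (Lv θ)) (sSup (Lv θ)) := by
      intro θ hθ
      ext x
      constructor
      · intro hx
        refine ⟨csInf_le (hbb θ) hx, lt_of_le_of_ne (le_csSup (hba θ) hx) ?_⟩
        intro he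
        obtain ⟨ε, hε, hεb, hcε⟩ := h x hx.1
        have h3 : x + ε / 2 ∈ Lv θ := by
          refine ⟨⟨by linarith [hx.1.1], by linarith⟩, ?_⟩
          rw [hcε (x + ε / 2) ⟨by linarith, by linarith⟩]
          exact hx.2
        have h4 := le_csSup (hba θ) h3
        linarith
      · rintro ⟨h1, h2⟩
        obtain ⟨y, hy, hxy⟩ := exists_lt_of_lt_csSup ⟨θ, hme θ hθ⟩ h2
        have hi := hinf θ hθ
        have hx : x ∈ Ico a b := ⟨hi.1.1.trans h1, hxy.trans hy.1.2⟩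
        refine ⟨hx, le_antisymm ?_ ?_⟩
        · have := hc hi.1 hx h1
          rw [hi.2] at this
          exact this
        · have := hc hx hy.1 hxy.le
          rw [hy.2] at this
          exact this
    have hlt : ∀ θ ∈ Ico a b, sInf (Lv θ) < sSup (Lv θ) := by
      intro θ hθ
      have h1 := hme θ hθ
      rw [heq θ hθ] at h1
      exact h1.1.trans_lt h1.2
    set I : Set (ℝ × ℝ) := (fun θ => (sInf (Lv θ), sSup (Lv θ))) '' Ico a b with hI
    have hdis : I.PairwiseDisjoint fun u => Ico u.1 u.2 := by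
      rintro u ⟨θ, hθ, rfl⟩ v ⟨η, hη, rfl⟩ huv
      rw [Function.onFun]
      simp only
      rw [← heq θ hθ, ← heq η hη, Set.disjoint_left]
      rintro x ⟨hx1, hx2⟩ ⟨-, hx3⟩
      apply huv
      have : Lv θ = Lv η := by
        simp only [hLv]
        rw [← hx2, ← hx3]
      simp only [this]
    refine ⟨I, ?_, ?_, ?_, hdis, ?_⟩
    · have h1 : I.PairwiseDisjoint fun u => Ioo u.1 u.2 :=
        hdis.mono fun u => Ioo_subset_Ico_self
      refine h1.countable_of_isOpen (fun _ _ => isOpen_Ioo) ?_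
      rintro u ⟨θ, hθ, rfl⟩
      exact nonempty_Ioo.2 (hlt θ hθ)
    · rintro u ⟨θ, hθ, rfl⟩
      exact hlt θ hθ
    · ext x
      simp only [mem_iUnion, exists_prop]
      constructor
      · rintro ⟨u, ⟨θ, hθ, rfl⟩, hx⟩
        simp only at hx
        rw [← heq θ hθ] at hx
        exact hx.1
      · intro hx
        refine ⟨_, ⟨x, hx, rfl⟩, ?_⟩
        simp only
        rw [← heq x hx]
        exact hme x hx
    · rintro u ⟨θ, hθ, rfl⟩ x hx y hy
      simp only at hx hy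
      rw [← heq θ hθ] at hx hy
      rw [hx.2, hy.2]

end Pool.Agent.Work.MP_ce2d68_st.helper76
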